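import Pool.Agent.Helper60.NF.Frm

/-!
# The secrets lemma for blocks of symbols
-/

set_option autoImplicit false

namespace Pool.Agent.Helper4.NB

open Pool.Agent.Helper19.NF
open Pool.Agent.Helper60.NF (xw child xw_eq child_inj child_lt)
open Pool.Agent.Helper60.NFF (obs_congr run_succ)

/-! ## Symbols which are read -/

section sy

variable {B ι E : Type} [Fintype ι]

open Classical in
/-- The symbols of the block `b` which are observed before the time `t`. -/
noncomputable def sy (o : ℕ → (B × ι) ⊕ E) (b : B) (t : ℕ) : Finset ι :=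
  Finset.univ.filter (fun l => ∃ j < t, o j = Sum.inl (b, l))

open Classical in
/-- The symbols of the block `b` which are among the first `a` observed ones. -/
noncomputable def fs (a : ℕ) (o : ℕ → (B × ι) ⊕ E) (b : B) : Finset ι :=
  Finset.univ.filter (fun l => ∃ j, o j = Sum.inl (b, l) ∧ (∀ i < j, o i ≠ Sum.inl (b, l)) ∧
    (sy o b j).card < a)

variable {a : ℕ} {o o' : ℕ → (B × ι) ⊕ E} {b : B} {l : ι} {t t' : ℕ}

theorem mem_sy : l ∈ sy o b t ↔ ∃ j < t, o j = Sum.inl (b, l) := by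
  simp [sy]

theorem mem_fs : l ∈ fs a o b ↔ ∃ j, o j = Sum.inl (b, l) ∧ (∀ i < j, o i ≠ Sum.inl (b, l)) ∧
    (sy o b j).card < a := by
  simp [fs]

theorem sy_mono (h : t ≤ t') : sy o b t ⊆ sy o b t' := by
  intro l hl
  rw [mem_sy] at hl ⊢
  obtain ⟨j, hj, hl⟩ := hl
  exact ⟨j, by omega, hl⟩

theorem sy_congr (h : ∀ j < t, o j = o' j) : sy o b t = sy o' b t := by
  ext l
  rw [mem_sy, mem_sy]
  constructor
  · rintro ⟨j, hj, hl⟩
    exact ⟨j, hj, (h j hj).symm.trans hl⟩
  · rintro ⟨j, hj, hl⟩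
    exact ⟨j, hj, (h j hj).trans hl⟩

/-- A new symbol is observed. -/
theorem sy_succ_card (h : o t = Sum.inl (b, l)) (hn : ∀ i < t, o i ≠ Sum.inl (b, l)) :
    (sy o b t).card + 1 ≤ (sy o b (t + 1)).card := by
  classical
  have h1 : l ∉ sy o b t := by
    rw [mem_sy]
    rintro ⟨j, hj, hl⟩
    exact hn j hj hl
  rw [← Finset.card_insert_of_notMem h1]
  refine Finset.card_le_card ?_
  intro l' hl'
  rcases Finset.mem_insert.1 hl' with rfl | h2
  · rw [mem_sy]
    exact ⟨t, by omega, h⟩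
  · exact sy_mono (by omega) h2

theorem fs_card : (fs a o b).card ≤ a := by
  classical
  rcases (fs a o b).eq_empty_or_nonempty with h0 | h0
  · rw [h0]
    simp
  · have h1 : ∀ l ∈ fs a o b, ∃ j, o j = Sum.inl (b, l) ∧ (∀ i < j, o i ≠ Sum.inl (b, l)) ∧
        (sy o b j).card < a := fun l hl => mem_fs.1 hl
    choose! f hf using h1
    obtain ⟨l₀, hl₀, hmax⟩ := Finset.exists_max_image (fs a o b) f h0
    have h2 : fs a o b ⊆ insert l₀ (sy o b (f l₀)) := by
      intro l hl
      rw [Finset.mem_insert, mem_sy]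
      by_cases h3 : l = l₀
      · exact Or.inl h3
      · refine Or.inr ⟨f l, ?_, (hf l hl).1⟩
        refine lt_of_le_of_ne (hmax l hl) ?_
        intro h4
        have h5 := (hf l hl).1
        rw [h4, (hf l₀ hl₀).1, Sum.inl.injEq, Prod.mk.injEq] at h5
        exact h3 h5.2.symm
    have h3 := (Finset.card_le_card h2).trans (Finset.card_insert_le _ _)
    have h4 := (hf l₀ hl₀).2.2
    omega

theorem fs_congr_aux (h : ∀ j < t, o j = o' j) (ha : a ≤ (sy o b t).card) :
    fs a o b ⊆ fs a o' b := by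
  intro l hl
  rw [mem_fs] at hl ⊢
  obtain ⟨j, h1, h2, h3⟩ := hl
  have h4 : j < t := by
    by_contra h5
    have h6 := Finset.card_le_card (sy_mono (o := o) (b := b) (not_lt.1 h5))
    omega
  refine ⟨j, (h j h4).symm.trans h1, fun i hi h5 => h2 i hi ((h i (by omega)).trans h5), ?_⟩
  rw [← sy_congr (o := o) fun i hi => h i (by omega)]
  exact h3

theorem fs_congr (h : ∀ j < t, o j = o' j) (ha : a ≤ (sy o b t).card) : fs a o b = fs a o' b := by
  refine Finset.Subset.antisymm (fs_congr_aux h ha) (fs_congr_aux (fun j hj => (h j hj).symm) ?_)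
  rwa [← sy_congr h]

open Classical in
/-- A set of `|ι| - a` symbols outside of `F`. -/
noncomputable def Xc (a : ℕ) (F : Finset ι) : Finset ι :=
  if h : ∃ X : Finset ι, X ⊆ Fᶜ ∧ X.card = Fintype.card ι - a then h.choose else ∅

theorem Xc_spec {F : Finset ι} (hF : F.card ≤ a) :
    (∀ l ∈ Xc a F, l ∉ F) ∧ (Xc a F).card = Fintype.card ι - a := by
  classical
  have h : ∃ X : Finset ι, X ⊆ Fᶜ ∧ X.card = Fintype.card ι - a := by
    obtain ⟨X, h1, h2⟩ := Finset.exists_subset_card_eq (s := Fᶜ) (n := Fintype.card ι - a)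
      (by rw [Finset.card_compl]; omega)
    exact ⟨X, h1, h2⟩
  unfold Xc
  rw [dif_pos h]
  exact ⟨fun l hl => Finset.mem_compl.1 (h.choose_spec.1 hl), h.choose_spec.2⟩

end sy

/-! ## The residue -/

section res

variable {D B ι Q : Type} [Fintype D] [AddCommGroup B] [Fintype ι] [AddCommGroup Q]

/-- The restriction of `A` to the symbols in `X` is onto. -/
def Onto (A : (ι → Q) → D → B) (X : Finset ι) : Prop :=
  ∀ w : D → B, ∃ y : ι → Q, (∀ l, l ∉ X → y l = 0) ∧ A y = w

/-- A block is determined by the symbols outside of `X`, the word and the residue. -/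
theorem exists_res [Finite B] [Finite Q] (A : (ι → Q) →+ (D → B)) (X : Finset ι)
    (hX : Onto A X) :
    ∃ r : (ι → Q) → Fin (Nat.card Q ^ X.card / Nat.card B ^ Fintype.card D), ∀ y y' : ι → Q,
      (∀ l, l ∉ X → y l = y' l) → A y = A y' → r y = r y' → y = y' := by
  classical
  -- the blocks supported in `X`
  let SX : AddSubgroup (ι → Q) :=
    { carrier := {y | ∀ l, l ∉ X → y l = 0}
      add_mem' := fun {y z} hy hz l hl => by
        show y l + z l = 0
        rw [hy l hl, hz l hl, add_zero]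
      zero_mem' := fun l _ => rfl
      neg_mem' := fun {y} hy l hl => by
        show -(y l) = 0
        rw [hy l hl, neg_zero] }
  have hSX : Nat.card SX = Nat.card Q ^ X.card := by
    have e : SX ≃ (X → Q) :=
      { toFun := fun y l => y.1 l.1
        invFun := fun f => ⟨fun l => if h : l ∈ X then f ⟨l, h⟩ else 0, fun l hl => dif_neg hl⟩
        left_inv := by
          rintro ⟨y, hy⟩
          apply Subtype.ext
          funext l
          show (if h : l ∈ X then y l else 0) = y l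
          split_ifs with h
          · rfl
          · exact (hy l h).symm
        right_inv := by
          intro f
          funext l
          show (if h : l.1 ∈ X then f ⟨l.1, h⟩ else 0) = f l
          rw [dif_pos l.2] }
    rw [Nat.card_congr e, Nat.card_fun]
    simp
  let φ : SX →+ (D → B) := A.comp SX.subtype
  have hφ : Function.Surjective φ := by
    intro w
    obtain ⟨y, h1, h2⟩ := hX w
    exact ⟨⟨y, h1⟩, h2⟩
  have hker : Nat.card φ.ker * Nat.card B ^ Fintype.card D = Nat.card Q ^ X.card := by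
    rw [← hSX, ← AddSubgroup.card_mul_index φ.ker, AddSubgroup.index_ker,
      AddMonoidHom.range_eq_top.2 hφ]
    congr 1
    rw [Nat.card_congr AddSubgroup.topEquiv.toEquiv, Nat.card_fun]
    simp
  have hB : 0 < Nat.card B := Nat.card_pos
  have hdiv : Nat.card φ.ker = Nat.card Q ^ X.card / Nat.card B ^ Fintype.card D := by
    rw [← hker, Nat.mul_div_cancel _ (pow_pos hB _)]
  have : Finite φ.ker := inferInstance
  let e : φ.ker ≃ Fin (Nat.card Q ^ X.card / Nat.card B ^ Fintype.card D) :=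
    (Finite.equivFin φ.ker).trans (finCongr hdiv)
  -- representatives
  let rel : Setoid (ι → Q) :=
    { r := fun y y' => (∀ l, l ∉ X → y l = y' l) ∧ A y = A y'
      iseqv := ⟨fun y => ⟨fun _ _ => rfl, rfl⟩, fun h => ⟨fun l hl => (h.1 l hl).symm, h.2.symm⟩,
        fun h h' => ⟨fun l hl => (h.1 l hl).trans (h'.1 l hl), h.2.trans h'.2⟩⟩ }
  have hout : ∀ y : ι → Q, (∀ l, l ∉ X → (Quotient.mk rel y).out l = y l) ∧
      A (Quotient.mk rel y).out = A y := fun y => Quotient.mk_out (s := rel) y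
  let δ : ∀ y : ι → Q, φ.ker := fun y =>
    ⟨⟨y - (Quotient.mk rel y).out, fun l hl => by
      show y l - (Quotient.mk rel y).out l = 0
      rw [(hout y).1 l hl, sub_self]⟩, by
      rw [AddMonoidHom.mem_ker]
      show A (y - (Quotient.mk rel y).out) = 0
      rw [map_sub, (hout y).2, sub_self]⟩
  refine ⟨fun y => e (δ y), fun y y' h1 h2 h3 => ?_⟩
  have h4 : δ y = δ y' := e.injective h3
  have h5 : y - (Quotient.mk rel y).out = y' - (Quotient.mk rel y').out :=
    congrArg (fun z : φ.ker => (z.1.1 : ι → Q)) h4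
  have h6 : Quotient.mk rel y = Quotient.mk rel y' := Quotient.sound (s := rel) ⟨h1, h2⟩
  rw [h6] at h5
  exact sub_left_injective h5

end res

/-! ## Announcements -/

/-- The properties of announcements which are used: `ann o k t b` means that in the observations `o` the announcement
`k` refers to the time `t` and to the block `b`. -/
structure AnnSys {B ι E κ : Type} [Fintype ι] (a : ℕ)
    (ann : (ℕ → (B × ι) ⊕ E) → κ → ℕ → B → Prop) : Prop where
  loc : ∀ {o o' k t b}, (∀ j ≤ t, o j = o' j) → ann o k t b → ann o' k t b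
  uniq : ∀ {o k t t' b b'}, ann o k t b → ann o k t' b' → t = t' ∧ b = b'
  few : ∀ {o k t b}, ann o k t b → (sy o b t).card ≤ a

/-! ## The network -/

variable {U D B ι Q Z κ : Type} [Fintype D] [AddCommGroup B] [Fintype ι] {σ S : ℕ}

/-- The words given by the blocks. -/
def wd (A : (ι → Q) → D → B) (J : B × ι → Q) (b : B) : D → B := A (fun l => J (b, l))

section ow

variable (g : D → Equiv.Perm U) (x0 : U → B) (G : Finset (ℕ × U)) (sg : ℕ × U → D) (A : (ι → Q) → D → B) (a : ℕ)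

open Classical in
/-- The nodes whose blocks are overwritten. -/
noncomputable def Gp : Finset (ℕ × U) := G ∪ G.image (fun w => child g w (sg w))

open Classical in
/-- The components of these nodes which are not holes. -/
noncomputable def Yc : Finset ((ℕ × U) × D) :=
  (Gp g G sg ×ˢ Finset.univ).filter (fun y => ¬ ∃ w ∈ G, sg w = y.2 ∧ child g w y.2 = y.1)

/-- The overwritten symbols. -/
def Ob (J : B × ι → Q) (o : ℕ → (B × ι) ⊕ Z) : Set (B × ι) :=
  {x | ∃ v ∈ Gp g G sg, x.1 = xw g x0 (wd A J) v ∧ x.2 ∈ Xc a (fs a o (xw g x0 (wd A J) v))}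

variable {g x0 G sg A a} {n : ℕ}

omit [Fintype D] [AddCommGroup B] in
theorem mem_Gp {v : ℕ × U} : v ∈ Gp g G sg ↔ v ∈ G ∨ ∃ w ∈ G, child g w (sg w) = v := by
  classical
  simp [Gp]

omit [AddCommGroup B] in
theorem mem_Yc {y : (ℕ × U) × D} :
    y ∈ Yc g G sg ↔ y.1 ∈ Gp g G sg ∧ ¬ ∃ w ∈ G, sg w = y.2 ∧ child g w y.2 = y.1 := by
  simp [Yc]

omit [Fintype D] [AddCommGroup B] in
theorem Gp_lt (hG : ∀ w ∈ G, 1 ≤ w.1 ∧ w.1 < n) {v : ℕ × U} (hv : v ∈ Gp g G sg) : v.1 < n := by
  rcases mem_Gp.1 hv with h | ⟨w, h, rfl⟩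
  · exact (hG v h).2
  · exact child_lt (hG w h).1 (hG w h).2.le

omit [AddCommGroup B] in
theorem Yc_card (hG : ∀ w ∈ G, 1 ≤ w.1 ∧ w.1 < n) :
    (Yc g G sg).card + G.card = (Gp g G sg).card * Fintype.card D := by
  classical
  have h1 : (Gp g G sg ×ˢ (Finset.univ : Finset D)) =
      Yc g G sg ∪ G.image (fun w => (child g w (sg w), sg w)) := by
    ext ⟨v, s⟩
    rw [Finset.mem_union, mem_Yc, Finset.mem_product, Finset.mem_image]
    constructor
    · rintro ⟨h1, -⟩
      by_cases h2 : ∃ w ∈ G, sg w = s ∧ child g w s = v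
      · right
        obtain ⟨w, h3, h4, h5⟩ := h2
        exact ⟨w, h3, by rw [h4, h5]⟩
      · exact Or.inl ⟨h1, h2⟩
    · rintro (⟨h1, -⟩ | ⟨w, h1, h2⟩)
      · exact ⟨h1, Finset.mem_univ _⟩
      · rw [Prod.mk.injEq] at h2
        refine ⟨mem_Gp.2 (Or.inr ⟨w, h1, h2.1⟩), Finset.mem_univ _⟩
  have h2 : Disjoint (Yc g G sg) (G.image (fun w => (child g w (sg w), sg w))) := by
    rw [Finset.disjoint_left]
    rintro ⟨v, s⟩ h3 h4
    obtain ⟨w, h5, h6⟩ := Finset.mem_image.1 h4
    rw [Prod.mk.injEq] at h6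
    refine (mem_Yc.1 h3).2 ⟨w, h5, h6.2, ?_⟩
    show child g w s = v
    rw [← h6.2]
    exact h6.1
  have h3 := congrArg Finset.card h1
  rw [Finset.card_product, Finset.card_univ, Finset.card_union_of_disjoint h2,
    Finset.card_image_of_injOn] at h3
  · exact h3.symm
  · intro w hw w' hw' h4
    simp only [Prod.mk.injEq] at h4
    have h5 := h4.1
    rw [h4.2] at h5
    exact child_inj (hG w hw).1 (hG w' hw').1 h5

theorem Ob_ncard [Finite B] {J : B × ι → Q} {o : ℕ → (B × ι) ⊕ Z} (hJ : Helper60.NF.CF g x0 n (wd A J))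
    (hG : ∀ w ∈ G, 1 ≤ w.1 ∧ w.1 < n) :
    (Ob g x0 G sg A a J o).ncard = (Gp g G sg).card * (Fintype.card ι - a) := by
  classical
  have h1 : Ob g x0 G sg A a J o =
      (((Gp g G sg).biUnion fun v => ({xw g x0 (wd A J) v} : Finset B) ×ˢ
        Xc a (fs a o (xw g x0 (wd A J) v)) : Finset (B × ι)) : Set (B × ι)) := by
    ext ⟨b, l⟩
    rw [Finset.mem_coe, Finset.mem_biUnion]
    constructor
    · rintro ⟨v, h1, h2, h3⟩
      exact ⟨v, h1, Finset.mem_product.2 ⟨Finset.mem_singleton.2 h2, h3⟩⟩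
    · rintro ⟨v, h1, h2⟩
      obtain ⟨h3, h4⟩ := Finset.mem_product.1 h2
      exact ⟨v, h1, Finset.mem_singleton.1 h3, h4⟩
  rw [h1, Set.ncard_coe_finset, Finset.card_biUnion]
  · rw [Finset.sum_congr rfl (fun v _ => by
      rw [Finset.card_product, Finset.card_singleton, one_mul, (Xc_spec (fs_card)).2]),
      Finset.sum_const, smul_eq_mul]
  · intro v hv v' hv' hne
    refine Finset.disjoint_left.2 ?_
    rintro ⟨b, l⟩ h2 h3
    have h4 := Finset.mem_singleton.1 (Finset.mem_product.1 h2).1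
    have h5 := Finset.mem_singleton.1 (Finset.mem_product.1 h3).1
    exact hne (hJ.inj (Gp_lt hG hv) (Gp_lt hG hv') (h4.symm.trans h5))

theorem notMem_Ob {J : B × ι → Q} {o : ℕ → (B × ι) ⊕ Z} (hJ : Helper60.NF.CF g x0 n (wd A J))
    (hG : ∀ w ∈ G, 1 ≤ w.1 ∧ w.1 < n) {v : ℕ × U} (hn : v.1 < n) (hv : v ∉ Gp g G sg) (l : ι) :
    (xw g x0 (wd A J) v, l) ∉ Ob g x0 G sg A a J o := by
  rintro ⟨v', h1, h2, -⟩
  exact hv (by rw [hJ.inj hn (Gp_lt hG h1) h2]; exact h1)

end ow

/-! ## Two inputs with the same code -/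

section two

variable {g : D → Equiv.Perm U} {x0 : U → B} {n a : ℕ} {G : Finset (ℕ × U)} {sg : ℕ × U → D}
  {A : (ι → Q) → D → B} {ρ : ℕ} {r : Finset ι → (ι → Q) → Fin ρ}
  {J J' K : B × ι → Q} {o o' : ℕ → (B × ι) ⊕ Z}

/-- The situation. -/
structure Twin (g : D → Equiv.Perm U) (x0 : U → B) (n a : ℕ) (G : Finset (ℕ × U)) (sg : ℕ × U → D)
    (A : (ι → Q) → D → B) (r : Finset ι → (ι → Q) → Fin ρ) (J J' K : B × ι → Q) (o o' : ℕ → (B × ι) ⊕ Z) :
    Prop where
  nd : ∀ w ∈ G, 1 ≤ w.1 ∧ w.1 < n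
  cf : Helper60.NF.CF g x0 n (wd A J)
  cf' : Helper60.NF.CF g x0 n (wd A J')
  ag : ∀ x, x ∉ Ob g x0 G sg A a J o → K x = J x
  ag' : ∀ x, x ∉ Ob g x0 G sg A a J' o' → K x = J' x
  rr : ∀ y ∈ Yc g G sg, wd A J (xw g x0 (wd A J) y.1) y.2 = wd A J' (xw g x0 (wd A J') y.1) y.2
  rs : ∀ v ∈ Gp g G sg, r (Xc a (fs a o (xw g x0 (wd A J) v))) (fun l => J (xw g x0 (wd A J) v, l)) =
    r (Xc a (fs a o' (xw g x0 (wd A J') v))) (fun l => J' (xw g x0 (wd A J') v, l))

theorem Twin.symm (h : Twin g x0 n a G sg A r J J' K o o') : Twin g x0 n a G sg A r J' J K o' o :=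
  ⟨h.nd, h.cf', h.cf, h.ag', h.ag, fun y hy => (h.rr y hy).symm, fun v hv => (h.rs v hv).symm⟩

/-- The components which are not holes agree. -/
theorem Twin.content (h : Twin g x0 n a G sg A r J J' K o o') {w : ℕ × U} {s : D} (hw : 1 ≤ w.1)
    (hn : w.1 ≤ n)
    (h1 : child g w s ∉ Gp g G sg → xw g x0 (wd A J) (child g w s) = xw g x0 (wd A J') (child g w s))
    (h2 : ¬ (w ∈ G ∧ sg w = s)) :
    wd A J (xw g x0 (wd A J) (child g w s)) s = wd A J' (xw g x0 (wd A J') (child g w s)) s := by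
  by_cases h3 : child g w s ∈ Gp g G sg
  · have h4 : (child g w s, s) ∈ Yc g G sg := by
      rw [mem_Yc]
      refine ⟨h3, ?_⟩
      rintro ⟨w', hw', h5, h6⟩
      have h7 := child_inj (h.nd w' hw').1 hw h6
      rw [h7] at hw' h5
      exact h2 ⟨hw', h5⟩
    exact h.rr _ h4
  · have h4 : ∀ l, J (xw g x0 (wd A J) (child g w s), l) = J' (xw g x0 (wd A J') (child g w s), l) := by
      intro l
      rw [← h.ag _ (notMem_Ob h.cf h.nd (child_lt hw hn) h3 l),
        ← h.ag' _ (notMem_Ob h.cf' h.nd (child_lt hw hn) h3 l), h1 h3]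
    unfold wd at h4 ⊢
    rw [funext h4]

/-- The values of the nodes outside `G` agree. -/
theorem Twin.out (h : Twin g x0 n a G sg A r J J' K o o') : ∀ (i : ℕ) (u : U), i ≤ n → (i, u) ∉ G →
    xw g x0 (wd A J) (i, u) = xw g x0 (wd A J') (i, u) := by
  intro i
  induction i with
  | zero => exact fun _ _ _ => rfl
  | succ i ih =>
    intro u hi hG
    rw [xw_eq _ (by simp), xw_eq _ (by simp)]
    refine Finset.sum_congr rfl fun s _ => ?_
    exact h.content (by simp) hi (fun h3 => ih _ (by omega) fun h4 => h3 (mem_Gp.2 (Or.inl h4)))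
      (fun h3 => hG h3.1)

/-- The content of the hole is determined by the value of the node. -/
theorem Twin.erased (h : Twin g x0 n a G sg A r J J' K o o') {w : ℕ × U} (hw : w ∈ G)
    (hv : xw g x0 (wd A J) w = xw g x0 (wd A J') w) :
    wd A J (xw g x0 (wd A J) (child g w (sg w))) (sg w) =
      wd A J' (xw g x0 (wd A J') (child g w (sg w))) (sg w) := by
  classical
  obtain ⟨h1, h2⟩ := h.nd w hw
  rw [xw_eq _ h1, xw_eq _ h1, ← Finset.add_sum_erase _ _ (Finset.mem_univ (sg w)),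
    ← Finset.add_sum_erase (Finset.univ : Finset D) _ (Finset.mem_univ (sg w))] at hv
  have h3 : ∑ s ∈ Finset.univ.erase (sg w), wd A J (xw g x0 (wd A J) (child g w s)) s =
      ∑ s ∈ Finset.univ.erase (sg w), wd A J' (xw g x0 (wd A J') (child g w s)) s := by
    refine Finset.sum_congr rfl fun s hs => ?_
    refine h.content h1 h2.le (fun h4 => h.out _ _ ?_ fun h5 => h4 (mem_Gp.2 (Or.inl h5))) fun h4 => ?_
    · exact (child_lt (g := g) (s := s) h1 h2.le).le
    · exact (Finset.mem_erase.1 hs).1 h4.2.symm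
  rw [h3] at hv
  exact add_right_cancel hv

/-- The blocks of a node agree. -/
theorem Twin.block (h : Twin g x0 n a G sg A r J J' K o o') (hr : ∀ (X : Finset ι) (y y' : ι → Q),
      X.card = Fintype.card ι - a → (∀ l, l ∉ X → y l = y' l) → A y = A y' → r X y = r X y' → y = y')
    {v : ℕ × U} (hv : v ∈ Gp g G sg) (hx : xw g x0 (wd A J) v = xw g x0 (wd A J') v)
    (hf : fs a o (xw g x0 (wd A J) v) = fs a o' (xw g x0 (wd A J) v))
    (hh : ∀ w ∈ G, child g w (sg w) = v → xw g x0 (wd A J) w = xw g x0 (wd A J') w) :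
    (fun l => J (xw g x0 (wd A J) v, l)) = fun l => J' (xw g x0 (wd A J) v, l) := by
  have h1 := h.rs v hv
  rw [← hx, ← hf] at h1
  refine hr (Xc a (fs a o (xw g x0 (wd A J) v))) _ _ (Xc_spec fs_card).2 (fun l hl => ?_) ?_ h1
  · have h2 : (xw g x0 (wd A J) v, l) ∉ Ob g x0 G sg A a J o := by
      rintro ⟨v', h3, h4, h5⟩
      have h6 := h.cf.inj (Gp_lt h.nd hv) (Gp_lt h.nd h3) h4
      subst h6
      exact hl h5
    have h3 : (xw g x0 (wd A J) v, l) ∉ Ob g x0 G sg A a J' o' := by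
      rintro ⟨v', h3, h4, h5⟩
      have h6 := h.cf'.inj (Gp_lt h.nd hv) (Gp_lt h.nd h3) (hx.symm.trans h4)
      subst h6
      rw [← hx, ← hf] at h5
      exact hl h5
    rw [← h.ag _ h2, ← h.ag' _ h3]
  · funext s
    show wd A J (xw g x0 (wd A J) v) s = wd A J' (xw g x0 (wd A J) v) s
    rw [hx]
    by_cases h2 : ∃ w ∈ G, sg w = s ∧ child g w s = v
    · obtain ⟨w, h3, h4, h5⟩ := h2
      subst h4
      have h6 := h.erased h3 (hh w h3 h5)
      rw [h5, hx] at h6
      exact h6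
    · have h3 := h.rr (v, s) (mem_Yc.2 ⟨hv, h2⟩)
      rw [hx] at h3
      exact h3

omit [AddCommGroup B] in
/-- The value of a node whose announcement is not later than `t`. -/
theorem same_of_le {ann : (ℕ → (B × ι) ⊕ Z) → κ → ℕ → B → Prop} (hann : AnnSys a ann)
    {o o' : ℕ → (B × ι) ⊕ Z} {k : κ} {t t₁ t₂ : ℕ} {x x' : B} (ho : ∀ j ≤ t, o j = o' j) (h1 : ann o k t₁ x)
    (h2 : ann o' k t₂ x') (ht : t₁ ≤ t) : x = x' :=
  (hann.uniq (hann.loc (fun j hj => ho j (by omega)) h1) h2).2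

/-- The answers agree. -/
theorem Twin.ans (h : Twin g x0 n a G sg A r J J' K o o') (hr : ∀ (X : Finset ι) (y y' : ι → Q),
      X.card = Fintype.card ι - a → (∀ l, l ∉ X → y l = y' l) → A y = A y' → r X y = r X y' → y = y')
    {ann : (ℕ → (B × ι) ⊕ Z) → κ → ℕ → B → Prop} (hann : AnnSys a ann) {num : ℕ × U → κ}
    (ha : ∀ w ∈ G, ∃ t, ann o (num w) t (xw g x0 (wd A J) w) ∧
        (sy o (xw g x0 (wd A J) (child g w (sg w))) (t + 1)).card ≤ a)
    (ha' : ∀ w ∈ G, ∃ t, ann o' (num w) t (xw g x0 (wd A J') w) ∧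
        (sy o' (xw g x0 (wd A J') (child g w (sg w))) (t + 1)).card ≤ a)
    {t : ℕ} (ho : ∀ j ≤ t, o j = o' j) {b : B} {l : ι} (ht : o t = Sum.inl (b, l))
    (hO : (b, l) ∈ Ob g x0 G sg A a J o) : J (b, l) = J' (b, l) := by
  classical
  obtain ⟨v, hv, hb, hl⟩ := hO
  simp only at hb hl
  subst hb
  have hl' : l ∉ fs a o (xw g x0 (wd A J) v) := (Xc_spec fs_card).1 l hl
  -- the first time
  have hex : ∃ j, o j = Sum.inl (xw g x0 (wd A J) v, l) := ⟨t, ht⟩
  obtain ⟨j, hj, hj1, hj2⟩ : ∃ j ≤ t, o j = Sum.inl (xw g x0 (wd A J) v, l) ∧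
      ∀ i < j, o i ≠ Sum.inl (xw g x0 (wd A J) v, l) :=
    ⟨Nat.find hex, Nat.find_min' hex ht, Nat.find_spec hex, fun i hi => Nat.find_min hex hi⟩
  have h1 : a ≤ (sy o (xw g x0 (wd A J) v) j).card := by
    by_contra h2
    exact hl' (mem_fs.2 ⟨j, hj1, hj2, not_le.1 h2⟩)
  have h2 := sy_succ_card hj1 hj2
  have key : ∀ t₁, (sy o (xw g x0 (wd A J) v) t₁).card ≤ a → t₁ ≤ j := by
    intro t₁ h3
    by_contra h4
    have h5 := Finset.card_le_card (sy_mono (o := o) (b := xw g x0 (wd A J) v) (show j + 1 ≤ t₁ by omega))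
    omega
  have hx : xw g x0 (wd A J) v = xw g x0 (wd A J') v := by
    by_cases hvG : v ∈ G
    · obtain ⟨t₁, h3, -⟩ := ha v hvG
      obtain ⟨t₂, h4, -⟩ := ha' v hvG
      exact same_of_le hann ho h3 h4 ((key t₁ (hann.few h3)).trans hj)
    · exact h.out _ _ (Gp_lt h.nd hv).le hvG
  have hf : fs a o (xw g x0 (wd A J) v) = fs a o' (xw g x0 (wd A J) v) :=
    fs_congr (fun i hi => ho i (by omega)) h1
  have hh : ∀ w ∈ G, child g w (sg w) = v → xw g x0 (wd A J) w = xw g x0 (wd A J') w := by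
    intro w hw hwv
    obtain ⟨t₁, h3, h5⟩ := ha w hw
    obtain ⟨t₂, h4, -⟩ := ha' w hw
    rw [hwv] at h5
    have h6 := key _ h5
    exact same_of_le hann ho h3 h4 (by omega)
  exact congrFun (h.block hr hv hx hf hh) l

end two

/-- The secrets lemma for blocks of symbols, with a finite set of nodes. -/
theorem secrets_core [Fintype B] [Finite Q] (g : D → Equiv.Perm U) (x0 : U → B) (n a : ℕ)
    (A : (ι → Q) → D → B) {ρ : ℕ} (r : Finset ι → (ι → Q) → Fin ρ)
    (hr' : ∀ (X : Finset ι) (y y' : ι → Q), X.card = Fintype.card ι - a →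
      (∀ l, l ∉ X → y l = y' l) → A y = A y' → r X y = r X y' → y = y')
    (hρB : ρ * Nat.card B ^ Fintype.card D ≤ Nat.card Q ^ (Fintype.card ι - a))
    (P : Prog (B × ι) Q Z σ S) (q : Fin S) (ann : (ℕ → (B × ι) ⊕ Z) → κ → ℕ → B → Prop)
    (hann : AnnSys a ann) (G : Finset (ℕ × U)) (hG : ∀ w ∈ G, 1 ≤ w.1 ∧ w.1 < n)
    (sg : ℕ × U → D) (num : ℕ × U → κ) :
    Nat.card {J : B × ι → Q // Helper60.NF.CF g x0 n (wd A J) ∧
      ∀ w ∈ G, ∃ t, ann (obs P J q) (num w) t (xw g x0 (wd A J) w) ∧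
        (sy (obs P J q) (xw g x0 (wd A J) (child g w (sg w))) (t + 1)).card ≤ a} *
      Fintype.card B ^ G.card ≤ Nat.card (B × ι → Q) := by
  classical
  obtain ⟨h', hh'⟩ : ∃ h', h' = Fintype.card ι - a := ⟨_, rfl⟩
  rw [← hh'] at hρB
  have hBp : 0 < Nat.card B := Nat.card_pos
  rcases isEmpty_or_nonempty (B × ι → Q) with hE | hE
  · rw [Nat.card_of_isEmpty (α := {J : B × ι → Q // _}), zero_mul]
    exact Nat.zero_le _
  have hQp : 0 < Nat.card Q ^ ((Gp g G sg).card * h') := by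
    rcases isEmpty_or_nonempty Q with hQ | hQ
    · rcases isEmpty_or_nonempty ι with hι | ⟨⟨l⟩⟩
      · have h1 : h' = 0 := by rw [hh', Fintype.card_eq_zero (α := ι)]; exact Nat.zero_sub a
        rw [h1, mul_zero, pow_zero]
        exact one_pos
      · obtain ⟨J⟩ := hE
        exact (hQ.false (J (0, l))).elim
    · exact pow_pos Nat.card_pos _
  set PP : Set (B × ι → Q) := {J | Helper60.NF.CF g x0 n (wd A J) ∧
      ∀ w ∈ G, ∃ t, ann (obs P J q) (num w) t (xw g x0 (wd A J) w) ∧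
        (sy (obs P J q) (xw g x0 (wd A J) (child g w (sg w))) (t + 1)).card ≤ a} with hPP
  have h := Pool.Agent.Helper60.NS.packing (κ := (Yc g G sg → B) × (Gp g G sg → Fin ρ)) PP
    (fun J => Ob g x0 G sg A a J (obs P J q)) ((Gp g G sg).card * h')
    (fun J c => (∀ y : Yc g G sg, c.1 y = wd A J (xw g x0 (wd A J) y.1.1) y.1.2) ∧
      ∀ v : Gp g G sg, c.2 v = r (Xc a (fs a (obs P J q) (xw g x0 (wd A J) v.1)))
        (fun l => J (xw g x0 (wd A J) v.1, l))) ?_
    (fun J hJ => by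
      rw [hh']
      exact Ob_ncard hJ.1 hG) ?_
  · have h1 : Nat.card ((Yc g G sg → B) × (Gp g G sg → Fin ρ)) =
        Nat.card B ^ (Yc g G sg).card * ρ ^ (Gp g G sg).card := by
      rw [Nat.card_prod, Nat.card_fun, Nat.card_fun]
      simp
    rw [h1] at h
    have hY := Yc_card (g := g) (sg := sg) hG
    have e1 : (Nat.card Q ^ h') ^ (Gp g G sg).card = Nat.card Q ^ ((Gp g G sg).card * h') := by
      rw [← pow_mul, mul_comm]
    have e2 : (Nat.card B ^ Fintype.card D) ^ (Gp g G sg).card =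
        Nat.card B ^ (Yc g G sg).card * Nat.card B ^ G.card := by
      rw [← pow_mul, ← pow_add, hY, mul_comm]
    have h2 : (Nat.card PP * Fintype.card B ^ G.card) *
        (Nat.card B ^ (Yc g G sg).card * Nat.card Q ^ ((Gp g G sg).card * h')) ≤
        Nat.card (B × ι → Q) *
        (Nat.card B ^ (Yc g G sg).card * Nat.card Q ^ ((Gp g G sg).card * h')) := by
      calc (Nat.card PP * Fintype.card B ^ G.card) *
            (Nat.card B ^ (Yc g G sg).card * Nat.card Q ^ ((Gp g G sg).card * h'))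
          = (Nat.card PP * Nat.card Q ^ ((Gp g G sg).card * h')) *
            (Nat.card B ^ Fintype.card D) ^ (Gp g G sg).card := by
              rw [e2, Nat.card_eq_fintype_card (α := B)]
              ring
        _ ≤ (Nat.card B ^ (Yc g G sg).card * ρ ^ (Gp g G sg).card * Nat.card (B × ι → Q)) *
            (Nat.card B ^ Fintype.card D) ^ (Gp g G sg).card := Nat.mul_le_mul_right _ h
        _ = Nat.card (B × ι → Q) * (Nat.card B ^ (Yc g G sg).card *
            (ρ * Nat.card B ^ Fintype.card D) ^ (Gp g G sg).card) := by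
              rw [mul_pow]
              ring
        _ ≤ Nat.card (B × ι → Q) * (Nat.card B ^ (Yc g G sg).card *
            (Nat.card Q ^ h') ^ (Gp g G sg).card) := by
              gcongr
        _ = _ := by rw [e1]
    exact Nat.le_of_mul_le_mul_right h2 (Nat.mul_pos (pow_pos hBp _) hQp)
  · exact fun J _ => ⟨(fun y => wd A J (xw g x0 (wd A J) y.1.1) y.1.2, fun v =>
      r (Xc a (fs a (obs P J q) (xw g x0 (wd A J) v.1))) (fun l => J (xw g x0 (wd A J) v.1, l))),
      fun _ => rfl, fun _ => rfl⟩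
  · rintro J ⟨hJ, ha⟩ J' ⟨hJ', ha'⟩ c K hs hs' hK hK'
    have hT : Twin g x0 n a G sg A r J J' K (obs P J q) (obs P J' q) :=
      ⟨hG, hJ, hJ', hK, hK', fun y hy => (hs.1 ⟨y, hy⟩).symm.trans (hs'.1 ⟨y, hy⟩),
        fun v hv => (hs.2 ⟨v, hv⟩).symm.trans (hs'.2 ⟨v, hv⟩)⟩
    -- the two runs agree
    have hlock : ∀ t, ∀ j ≤ t, (P.step J)^[j] q = (P.step J')^[j] q := by
      intro t
      induction t with
      | zero =>
        intro j hj
        obtain rfl : j = 0 := by omega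
        rfl
      | succ t ih =>
        have ho : ∀ j ≤ t, obs P J q j = obs P J' q j := fun j hj => obs_congr (ih j hj)
        intro j hj
        rcases Nat.lt_or_eq_of_le hj with h6 | h6
        · exact ih j (by omega)
        · subst h6
          refine run_succ (ih t le_rfl) ?_
          rintro ⟨b, l⟩ hx
          by_cases h7 : (b, l) ∈ Ob g x0 G sg A a J (obs P J q)
          · exact hT.ans hr' hann ha ha' ho hx h7
          · by_cases h8 : (b, l) ∈ Ob g x0 G sg A a J' (obs P J' q)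
            · exact (hT.symm.ans hr' hann ha' ha (fun j hj => (ho j hj).symm)
                ((ho t le_rfl).symm.trans hx) h8).symm
            · rw [← hK _ h7, ← hK' _ h8]
    have ho : ∀ j, obs P J q j = obs P J' q j := fun j => obs_congr (hlock j j le_rfl)
    have hoo : obs P J q = obs P J' q := funext ho
    have hv : ∀ w ∈ G, xw g x0 (wd A J) w = xw g x0 (wd A J') w := by
      intro w hw
      obtain ⟨t₁, h3, -⟩ := ha w hw
      obtain ⟨t₂, h4, -⟩ := ha' w hw
      exact same_of_le hann (t := t₁) (fun j _ => ho j) h3 h4 le_rfl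
    have hval : ∀ v ∈ Gp g G sg, xw g x0 (wd A J) v = xw g x0 (wd A J') v := by
      intro v hv'
      by_cases hvG : v ∈ G
      · exact hv v hvG
      · exact hT.out _ _ (Gp_lt hG hv').le hvG
    funext x
    obtain ⟨b, l⟩ := x
    by_cases h7 : (b, l) ∈ Ob g x0 G sg A a J (obs P J q)
    · obtain ⟨v, h8, h9, h10⟩ := h7
      simp only at h9
      subst h9
      exact congrFun (hT.block hr' h8 (hval v h8) (by rw [hoo]) fun w hw _ => hv w hw) l
    · by_cases h8 : (b, l) ∈ Ob g x0 G sg A a J' (obs P J' q)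
      · obtain ⟨v, h8, h9, h10⟩ := h8
        simp only at h9
        subst h9
        exact (congrFun (hT.symm.block hr' h8 (hval v h8).symm (by rw [hoo])
          fun w hw _ => (hv w hw).symm) l).symm
      · rw [← hK _ h7, ← hK' _ h8]

/-- The same for an additive map `A` which is onto on every set of `|ι| - a` symbols. -/
theorem secrets_set [AddCommGroup Q] [Fintype B] [Fintype Q] (g : D → Equiv.Perm U) (x0 : U → B) (n a : ℕ)
    (A : (ι → Q) →+ (D → B)) (hA : ∀ X : Finset ι, X.card = Fintype.card ι - a → Onto A X)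
    (P : Prog (B × ι) Q Z σ S) (q : Fin S) (ann : (ℕ → (B × ι) ⊕ Z) → κ → ℕ → B → Prop)
    (hann : AnnSys a ann) (G : Finset (ℕ × U)) (hG : ∀ w ∈ G, 1 ≤ w.1 ∧ w.1 < n)
    (sg : ℕ × U → D) (num : ℕ × U → κ) :
    Nat.card {J : B × ι → Q // Helper60.NF.CF g x0 n (wd A J) ∧
      ∀ w ∈ G, ∃ t, ann (obs P J q) (num w) t (xw g x0 (wd A J) w) ∧
        (sy (obs P J q) (xw g x0 (wd A J) (child g w (sg w))) (t + 1)).card ≤ a} *
      Fintype.card B ^ G.card ≤ Nat.card (B × ι → Q) := by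
  classical
  obtain ⟨ρ, hρ⟩ : ∃ ρ, ρ = Nat.card Q ^ (Fintype.card ι - a) / Nat.card B ^ Fintype.card D := ⟨_, rfl⟩
  have hρB : ρ * Nat.card B ^ Fintype.card D ≤ Nat.card Q ^ (Fintype.card ι - a) := by
    rw [hρ]
    exact Nat.div_mul_le_self _ _
  have hX0 : ∃ X : Finset ι, X.card = Fintype.card ι - a := by
    obtain ⟨X, -, hX⟩ := Finset.exists_subset_card_eq (s := (Finset.univ : Finset ι))
      (n := Fintype.card ι - a) (by rw [Finset.card_univ]; omega)
    exact ⟨X, hX⟩
  have hex1 : ∀ X : Finset ι, X.card = Fintype.card ι - a → ∃ r : (ι → Q) → Fin ρ, ∀ y y' : ι → Q,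
      (∀ l, l ∉ X → y l = y' l) → A y = A y' → r y = r y' → y = y' := by
    intro X hX
    have h1 := exists_res A X (hA X hX)
    rw [hX, ← hρ] at h1
    exact h1
  obtain ⟨X₀, hX₀⟩ := hX0
  obtain ⟨r₀, -⟩ := hex1 X₀ hX₀
  have hex : ∀ X : Finset ι, ∃ r : (ι → Q) → Fin ρ, X.card = Fintype.card ι - a → ∀ y y' : ι → Q,
      (∀ l, l ∉ X → y l = y' l) → A y = A y' → r y = r y' → y = y' := by
    intro X
    by_cases hX : X.card = Fintype.card ι - a
    · obtain ⟨r, hr⟩ := hex1 X hX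
      exact ⟨r, fun _ => hr⟩
    · exact ⟨r₀, fun h => absurd h hX⟩
  choose r hr using hex
  exact secrets_core g x0 n a A r (fun X y y' hX => hr X hX y y') hρB P q ann hann G hG sg num

end Pool.Agent.Helper4.NB
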