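import Pool.Agent.Helper27.NB.Defs
import Pool.Agent.Helper4.NB.Sec

/-!
# The secrets lemma in the frame
-/

set_option autoImplicit false

namespace Pool.Agent.Helper4.NB

open Pool.Agent.Helper6.IP (cnt cnt_lt cnt_congr)
open Pool.Agent.Helper19.NF (Prog obs val CF)
open Pool.Agent.Helper27.NB (Hide rd New Early Rip crip Hit)
open Pool.Agent.Helper60.NF (xw child)
open Pool.Agent.Helper60.NFF (val_eq cf_iff)

section ann

variable {B Λ Z : Type} [Fintype Λ] {a : ℕ}

theorem rd_eq (o : ℕ → (B × Λ) ⊕ Z) (b : B) (t : ℕ) : rd o b t = (sy o b t).card := by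
  unfold rd
  rw [← Set.ncard_coe_finset]
  congr 1
  ext l
  rw [Finset.mem_coe, mem_sy]
  rfl

/-- The announcements of the two kinds. -/
def ann (a : ℕ) (o : ℕ → (B × Λ) ⊕ Z) (k : Bool × ℕ) (t : ℕ) (b : B) : Prop :=
  if k.1 then Early a o b t ∧ cnt o t = k.2 else Rip a o b t ∧ crip a o t = k.2

omit [Fintype Λ] in
theorem new_congr {o o' : ℕ → (B × Λ) ⊕ Z} {b : B} {t : ℕ} (h : ∀ j ≤ t, o j = o' j) (h1 : New o b t) :
    New o' b t := by
  obtain ⟨l, h2, h3⟩ := h1
  exact ⟨l, (h t le_rfl).symm.trans h2, fun j hj h4 => h3 j hj ((h j hj.le).trans h4)⟩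

theorem rd_congr {o o' : ℕ → (B × Λ) ⊕ Z} {b : B} {t : ℕ} (h : ∀ j < t, o j = o' j) :
    rd o b t = rd o' b t := by
  rw [rd_eq, rd_eq, sy_congr h]

theorem rd_mono {o : ℕ → (B × Λ) ⊕ Z} {b : B} {t t' : ℕ} (h : t ≤ t') : rd o b t ≤ rd o b t' := by
  rw [rd_eq, rd_eq]
  exact Finset.card_le_card (sy_mono h)

theorem crip_congr {o o' : ℕ → (B × Λ) ⊕ Z} {t : ℕ} (h : ∀ j < t, o j = o' j) :
    crip a o t = crip a o' t := by
  unfold crip
  congr 1
  ext b
  show a + 1 ≤ rd o b t ↔ a + 1 ≤ rd o' b t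
  rw [rd_congr h]

/-- Only finitely many blocks are observed before `t`. -/
theorem crip_finite (o : ℕ → (B × Λ) ⊕ Z) (t : ℕ) : {b : B | a + 1 ≤ rd o b t}.Finite := by
  have h1 : {x : B × Λ | ∃ m < t, o m = Sum.inl x}.Finite := Pool.Agent.Helper6.IP.cnt_finite t
  refine (h1.image Prod.fst).subset ?_
  intro b hb
  have h2 : 0 < rd o b t := by
    have : a + 1 ≤ rd o b t := hb
    omega
  rw [rd_eq, Finset.card_pos] at h2
  obtain ⟨l, hl⟩ := h2
  obtain ⟨j, hj, hl⟩ := mem_sy.1 hl
  exact ⟨(b, l), ⟨j, hj, hl⟩, rfl⟩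

theorem crip_lt {o : ℕ → (B × Λ) ⊕ Z} {b : B} {t t' : ℕ} (h : t < t') (hr : Rip a o b t) :
    crip a o t < crip a o t' := by
  refine Set.ncard_lt_ncard ⟨fun c hc => ?_, fun hsub => ?_⟩ (crip_finite o t')
  · exact le_trans hc (rd_mono h.le)
  · obtain ⟨⟨l, h1, h2⟩, h3⟩ := hr
    have h4 := sy_succ_card h1 h2
    have h5 := Finset.card_le_card (sy_mono (o := o) (b := b) (show t + 1 ≤ t' by omega))
    have h6 : a + 1 ≤ rd o b t' := by
      rw [rd_eq] at h3 ⊢
      omega
    have h7 : a + 1 ≤ rd o b t := hsub h6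
    omega

theorem annSys (a : ℕ) : AnnSys (B := B) (ι := Λ) (E := Z) a (ann a) where
  loc := by
    intro o o' k t b h h1
    unfold ann at h1 ⊢
    split_ifs with hk
    · rw [if_pos hk] at h1
      obtain ⟨⟨h2, h3⟩, h4⟩ := h1
      exact ⟨⟨new_congr h h2, by rw [← rd_congr fun j hj => h j hj.le]; exact h3⟩,
        by rw [← cnt_congr fun j hj => h j hj.le]; exact h4⟩
    · rw [if_neg hk] at h1
      obtain ⟨⟨h2, h3⟩, h4⟩ := h1
      exact ⟨⟨new_congr h h2, by rw [← rd_congr fun j hj => h j hj.le]; exact h3⟩,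
        by rw [← crip_congr fun j hj => h j hj.le]; exact h4⟩
  uniq := by
    intro o k t t' b b' h1 h2
    have key : t = t' := by
      unfold ann at h1 h2
      split_ifs at h1 h2 with hk
      · obtain ⟨⟨⟨l, h3, h4⟩, -⟩, h5⟩ := h1
        obtain ⟨⟨⟨l', h3', h4'⟩, -⟩, h5'⟩ := h2
        by_contra hne
        rcases Nat.lt_or_gt_of_ne hne with h6 | h6
        · have := cnt_lt h6 h3 h4
          omega
        · have := cnt_lt h6 h3' h4'
          omega
      · obtain ⟨h3, h5⟩ := h1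
        obtain ⟨h3', h5'⟩ := h2
        by_contra hne
        rcases Nat.lt_or_gt_of_ne hne with h6 | h6
        · have := crip_lt h6 h3
          omega
        · have := crip_lt h6 h3'
          omega
    have hN : ∀ {c : B} {s : ℕ}, ann a o k s c → New o c s := by
      intro c s hc
      unfold ann at hc
      split_ifs at hc
      · exact hc.1.1
      · exact hc.1.1
    refine ⟨key, ?_⟩
    subst key
    obtain ⟨l, h3, -⟩ := hN h1
    obtain ⟨l', h3', -⟩ := hN h2
    rw [h3, Sum.inl.injEq, Prod.mk.injEq] at h3'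
    exact h3'.1
  few := by
    intro o k t b h1
    unfold ann at h1
    rw [← rd_eq]
    split_ifs at h1
    · exact h1.1.2
    · exact h1.1.2.le

end ann

variable {U D B Λ F Z : Type} [Fintype D] [AddCommGroup B] [Fintype B] [Fintype Λ] [Fintype F]
  {σ S ρ h a : ℕ}

/-- B2: the secrets lemma. -/
theorem secrets {ι : Type} [Fintype ι] (H : Hide Λ F (D → B) ρ h) (hah : a + h = Fintype.card Λ)
    (g : D → Equiv.Perm U) (x0 : U → B) (n : ℕ) (P : Prog (B × Λ) F Z σ S) (q : Fin S) (nd : ι → ℕ × U)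
    (hinj : Function.Injective nd) (hrow : ∀ i, 1 ≤ (nd i).1 ∧ (nd i).1 < n) (sl : ι → D) (kind : ι → Bool)
    (num : ι → ℕ) :
    Nat.card {J : B × Λ → F // CF g x0 n (Helper27.NB.wd H J) ∧ ∀ i, Hit a (obs P J q) (kind i)
      (val g x0 (Helper27.NB.wd H J) (nd i).1 (nd i).2)
      (val g x0 (Helper27.NB.wd H J) ((nd i).1 - 1) (g (sl i) (nd i).2)) (num i)} *
      Fintype.card B ^ Fintype.card ι ≤ Nat.card (B × Λ → F) := by
  classical
  have hh : h = Fintype.card Λ - a := by omega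
  rcases isEmpty_or_nonempty ι with hι | ⟨⟨i₀⟩⟩
  · rw [Fintype.card_eq_zero (α := ι), pow_zero, mul_one]
    exact Nat.card_le_card_of_injective Subtype.val Subtype.val_injective
  · set G : Finset (ℕ × U) := Finset.univ.image nd with hGd
    have hG : ∀ w ∈ G, 1 ≤ w.1 ∧ w.1 < n := by
      intro w hw
      obtain ⟨i, -, rfl⟩ := Finset.mem_image.1 hw
      exact hrow i
    have hcard : ρ * Nat.card B ^ Fintype.card D ≤ Nat.card F ^ (Fintype.card Λ - a) := by
      have h1 := H.card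
      rw [Nat.card_fun, Nat.card_eq_fintype_card (α := D), hh] at h1
      exact h1.le
    have h := secrets_core g x0 n a H.dec H.res (fun X y y' hX => H.inj X (hX.trans hh.symm) y y') hcard P q
      (ann a) (annSys a) G hG (Function.extend nd sl fun _ => sl i₀)
      (Function.extend nd (fun i => (kind i, num i)) fun _ => (true, 0))
    rw [hGd, Finset.card_image_of_injective _ hinj, Finset.card_univ] at h
    refine le_trans (Nat.mul_le_mul_right _ ?_) h
    refine Nat.card_le_card_of_injective (fun J => ⟨J.1, (cf_iff g x0 n _).1 J.2.1, ?_⟩) ?_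
    · intro w hw
      obtain ⟨i, -, rfl⟩ := Finset.mem_image.1 hw
      rw [hinj.extend_apply, hinj.extend_apply]
      have hCF : Pool.Agent.Helper60.NF.CF g x0 n (wd H.dec J.1) := (cf_iff g x0 n _).1 J.2.1
      obtain ⟨t, h1, h2⟩ := J.2.2 i
      rw [val_eq] at h1 h2
      refine ⟨t, h2, ?_⟩
      -- at the time `t` a symbol of the node is observed
      have hN : ∃ l, obs P J.1 q t = Sum.inl (xw g x0 (wd H.dec J.1) (nd i), l) := by
        split_ifs at h2
        · obtain ⟨⟨⟨l, h3, -⟩, -⟩, -⟩ := h2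
          exact ⟨l, h3⟩
        · obtain ⟨⟨⟨l, h3, -⟩, -⟩, -⟩ := h2
          exact ⟨l, h3⟩
      obtain ⟨l, hl⟩ := hN
      have hsub : sy (obs P J.1 q) (xw g x0 (wd H.dec J.1) (child g (nd i) (sl i))) (t + 1) ⊆
          sy (obs P J.1 q) (xw g x0 (wd H.dec J.1) (child g (nd i) (sl i))) t := by
        intro l' hl'
        rw [mem_sy] at hl' ⊢
        obtain ⟨j, hj, hj'⟩ := hl'
        refine ⟨j, ?_, hj'⟩
        by_contra h3
        have h4 : j = t := by omega
        subst h4
        rw [hl, Sum.inl.injEq, Prod.mk.injEq] at hj'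
        have h5 := hCF.inj (hrow i).2 (Helper60.NF.child_lt (hrow i).1 (hrow i).2.le) hj'.1
        have h6 := congrArg Prod.fst h5
        have h7 := (hrow i).1
        simp only [child] at h6
        omega
      refine (Finset.card_le_card hsub).trans ?_
      rw [← rd_eq]
      exact h1
    · intro J J' hJ
      exact Subtype.ext (Subtype.mk.inj hJ)

end Pool.Agent.Helper4.NB
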